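import Pool.Agent.U834.GSP.StmA

/-!
# Project GSP, package CPX: complexification of a real algebra of matrices closed under the adjoint
-/

set_option autoImplicit false

open scoped Matrix Pointwise
open Finset

namespace Pool.Agent.U2.GSP.CPX

open Pool.Agent.U834.GSP

/-- the matrix with the same entries over `ℂ` -/
noncomputable def cx {m : ℕ} (b : Matrix (Fin m) (Fin m) ℝ) : Matrix (Fin m) (Fin m) ℂ :=
  b.map (fun x : ℝ => (x : ℂ))

lemma cx_mul {m : ℕ} (a b : Matrix (Fin m) (Fin m) ℝ) : cx (a * b) = cx a * cx b := by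
  ext i j
  simp [cx, Matrix.mul_apply]

lemma cx_one {m : ℕ} : cx (1 : Matrix (Fin m) (Fin m) ℝ) = 1 := by
  ext i j
  by_cases h : i = j
  · subst h; simp [cx]
  · simp [cx, Matrix.one_apply_ne h]

lemma cx_star {m : ℕ} (a : Matrix (Fin m) (Fin m) ℝ) : star (cx a) = cx (star a) := by
  ext i j
  simp [cx, Matrix.star_apply]

lemma cx_sum {m n : ℕ} (c : Fin n → ℝ) (b : Fin n → Matrix (Fin m) (Fin m) ℝ) :
    cx (∑ i, c i • b i) = ∑ i, (c i : ℂ) • cx (b i) := by
  ext k l
  simp [cx, Matrix.sum_apply]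

theorem t_CPX : S_CPX := by
  intro m ℬ
  set S : Set (Matrix (Fin m) (Fin m) ℂ) := cx '' (ℬ : Set (Matrix (Fin m) (Fin m) ℝ)) with hS
  have hSS : S * S ⊆ S := by
    rintro _ ⟨_, ⟨a, ha, rfl⟩, _, ⟨b, hb, rfl⟩, rfl⟩
    exact ⟨a * b, mul_mem ha hb, cx_mul a b⟩
  have hmul : ∀ x y, x ∈ Submodule.span ℂ S → y ∈ Submodule.span ℂ S → x * y ∈ Submodule.span ℂ S := by
    intro x y hx hy
    have h1 : x * y ∈ Submodule.span ℂ S * Submodule.span ℂ S := Submodule.mul_mem_mul hx hy
    rw [Submodule.span_mul_span] at h1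
    exact Submodule.span_mono hSS h1
  have hone : (1 : Matrix (Fin m) (Fin m) ℂ) ∈ Submodule.span ℂ S :=
    Submodule.subset_span ⟨1, one_mem ℬ, cx_one⟩
  have hstar : ∀ x, x ∈ Submodule.span ℂ S → star x ∈ Submodule.span ℂ S := by
    intro x hx
    induction hx using Submodule.span_induction with
    | mem x h =>
      obtain ⟨a, ha, rfl⟩ := h
      exact Submodule.subset_span ⟨star a, star_mem ha, (cx_star a).symm⟩
    | zero => rw [star_zero]; exact Submodule.zero_mem _
    | add x y _ _ h1 h2 => rw [star_add]; exact Submodule.add_mem _ h1 h2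
    | smul c x _ h => rw [star_smul]; exact Submodule.smul_mem _ _ h
  let 𝒜 : StarSubalgebra ℂ (Matrix (Fin m) (Fin m) ℂ) :=
    { carrier := Submodule.span ℂ S
      mul_mem' := fun {x y} hx hy => hmul x y hx hy
      one_mem' := hone
      add_mem' := fun {x y} hx hy => Submodule.add_mem _ hx hy
      zero_mem' := Submodule.zero_mem _
      algebraMap_mem' := fun r => by
        rw [Algebra.algebraMap_eq_smul_one]
        exact Submodule.smul_mem _ _ hone
      star_mem' := fun {x} hx => hstar x hx }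
  refine ⟨𝒜, fun b hb => Submodule.subset_span ⟨b, hb, rfl⟩, ?_⟩
  -- the dimension
  let e : 𝒜 →ₗ[ℂ] Submodule.span ℂ S :=
    { toFun := fun x => ⟨x.1, x.2⟩
      map_add' := fun x y => rfl
      map_smul' := fun c x => rfl }
  have he : Function.Injective e := by
    intro x y h
    have : (e x : Matrix (Fin m) (Fin m) ℂ) = e y := congrArg Subtype.val h
    exact Subtype.ext this
  refine (LinearMap.finrank_le_finrank_of_injective he).trans ?_
  have : Module.Finite ℝ ℬ :=
    inferInstanceAs (Module.Finite ℝ (Subalgebra.toSubmodule ℬ.toSubalgebra))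
  let b := Module.finBasis ℝ ℬ
  have hspan : Submodule.span ℂ S ≤
      Submodule.span ℂ (Set.range fun i => cx (b i : Matrix (Fin m) (Fin m) ℝ)) := by
    rw [Submodule.span_le]
    rintro _ ⟨a, ha, rfl⟩
    have h1 : a = ∑ i, (b.repr ⟨a, ha⟩ i) • (b i : Matrix (Fin m) (Fin m) ℝ) := by
      have h2 := b.sum_repr ⟨a, ha⟩
      have h3 := congrArg (Subtype.val) h2
      refine Eq.trans h3.symm ?_
      rw [AddSubmonoidClass.coe_finsetSum]
      rfl
    rw [h1, cx_sum]
    exact Submodule.sum_mem _ fun i _ => Submodule.smul_mem _ _ (Submodule.subset_span ⟨i, rfl⟩)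
  refine (Submodule.finrank_mono hspan).trans ?_
  have h4 := finrank_range_le_card (R := ℂ) (fun i => cx (b i : Matrix (Fin m) (Fin m) ℝ))
  simpa [Set.finrank] using h4

end Pool.Agent.U2.GSP.CPX
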